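import Pool.Agent.Run7.h741.LC.Any

/-!
# The classes of the three levels
-/

set_option autoImplicit false

namespace Pool.Agent.Run7.h741.LC

/-- the prime numbers as elements of `Nat.Primes` -/
def pr2 : Nat.Primes := ⟨2, Nat.prime_two⟩
def pr3 : Nat.Primes := ⟨3, Nat.prime_three⟩
def pr5 : Nat.Primes := ⟨5, Nat.prime_five⟩
def pr7 : Nat.Primes := ⟨7, by norm_num⟩

theorem key3 : ∀ x y r : ZMod 3, x ≠ 0 → y ≠ 0 → x * y = r * r → x = y := by
  decide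

theorem key5 : ∀ x y r : ZMod 5, (x = 2 ∨ x = 3) → y ≠ 0 → x * y = r * r → y = 2 ∨ y = 3 := by
  decide

theorem key7 : ∀ x y r : ZMod 7, (x = 3 ∨ x = 5 ∨ x = 6) → y ≠ 0 → x * y = r * r →
    y = 3 ∨ y = 5 ∨ y = 6 := by
  decide

theorem Loc.mod8 {S : Finset Nat.Primes} (h2 : pr2 ∈ S) {m n : ℕ} (hm : Squarefree m)
    (hn : Squarefree n) (hodd : m % 2 = 1) (h : Loc S m n) : m % 8 = n % 8 := by
  have : Fact (Nat.Prime 2) := ⟨Nat.prime_two⟩
  have h5 : Same 2 (m : ℤ) n := h pr2 h2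
  have h6 : ¬ (2 : ℤ) ∣ n := by
    intro hd
    have := Same.dvd (p := 2) (sqf_cast.2 hn) (sqf_cast.2 hm) h5.symm (by exact_mod_cast hd)
    push_cast at this
    omega
  have h7 := Same.mod_eight (by omega) (by omega) h5
  omega

/-- the two numbers modulo a prime -/
theorem Loc.modp {S : Finset Nat.Primes} {p : Nat.Primes} (h3 : p ∈ S) {m n : ℕ}
    (hm : Squarefree m) (hn : Squarefree n) (h0 : ¬ (p : ℕ) ∣ m) (h : Loc S m n) :
    ¬ (p : ℕ) ∣ n ∧ ∃ r : ZMod (p : ℕ), (m : ZMod (p : ℕ)) * (n : ZMod (p : ℕ)) = r * r := by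
  have : Fact (p : ℕ).Prime := ⟨p.2⟩
  have h5 : Same (p : ℕ) (m : ℤ) n := h p h3
  constructor
  · intro hd
    have := Same.dvd (p := (p : ℕ)) (sqf_cast.2 hn) (sqf_cast.2 hm) h5.symm (by exact_mod_cast hd)
    exact h0 (by exact_mod_cast this)
  · obtain ⟨r, hr⟩ := Same.sq_mod h5
    exact ⟨r, by rw [← hr]; push_cast; rfl⟩

theorem Loc.mod3 {S : Finset Nat.Primes} (h3 : pr3 ∈ S) {m n : ℕ} (hm : Squarefree m)
    (hn : Squarefree n) (h0 : m % 3 ≠ 0) (h : Loc S m n) : m % 3 = n % 3 := by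
  obtain ⟨h1, r, h2⟩ := Loc.modp h3 hm hn (fun hd => h0 (Nat.mod_eq_zero_of_dvd hd)) h
  have h1' : ¬ 3 ∣ n := h1
  have h4 : (m : ZMod 3) = n := key3 _ _ r
    (fun h5 => h0 (Nat.mod_eq_zero_of_dvd ((ZMod.natCast_eq_zero_iff m 3).1 h5)))
    (fun h5 => h1' ((ZMod.natCast_eq_zero_iff n 3).1 h5)) h2
  exact (ZMod.natCast_eq_natCast_iff' m n 3).1 h4

theorem Loc.mod5 {S : Finset Nat.Primes} (h3 : pr5 ∈ S) {m n : ℕ} (hm : Squarefree m)
    (hn : Squarefree n) (h0 : m % 5 = 2 ∨ m % 5 = 3) (h : Loc S m n) : n % 5 = 2 ∨ n % 5 = 3 := by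
  obtain ⟨h1, r, h2⟩ := Loc.modp h3 hm hn (fun hd => by
    have := Nat.mod_eq_zero_of_dvd (show 5 ∣ m from hd)
    omega) h
  have h1' : ¬ 5 ∣ n := h1
  have e : ∀ a k : ℕ, a % 5 = k % 5 → (a : ZMod 5) = (k : ZMod 5) := fun a k hk =>
    (ZMod.natCast_eq_natCast_iff' a k 5).2 hk
  have e' : ∀ a k : ℕ, (a : ZMod 5) = (k : ZMod 5) → a % 5 = k % 5 := fun a k hk =>
    (ZMod.natCast_eq_natCast_iff' a k 5).1 hk
  have c2 : ((2 : ℕ) : ZMod 5) = 2 := rfl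
  have c3 : ((3 : ℕ) : ZMod 5) = 3 := rfl
  have h0' : (m : ZMod 5) = 2 ∨ (m : ZMod 5) = 3 :=
    h0.imp (fun h => (e m 2 h).trans c2) (fun h => (e m 3 h).trans c3)
  have h4 : (n : ZMod 5) = 2 ∨ (n : ZMod 5) = 3 := key5 (m : ZMod 5) (n : ZMod 5) r h0'
    (fun h5 => h1' ((ZMod.natCast_eq_zero_iff n 5).1 h5)) h2
  exact h4.imp (fun h => e' n 2 (h.trans c2.symm)) (fun h => e' n 3 (h.trans c3.symm))

theorem Loc.mod7 {S : Finset Nat.Primes} (h3 : pr7 ∈ S) {m n : ℕ} (hm : Squarefree m)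
    (hn : Squarefree n) (h0 : m % 7 = 3 ∨ m % 7 = 5 ∨ m % 7 = 6) (h : Loc S m n) :
    n % 7 = 3 ∨ n % 7 = 5 ∨ n % 7 = 6 := by
  obtain ⟨h1, r, h2⟩ := Loc.modp h3 hm hn (fun hd => by
    have := Nat.mod_eq_zero_of_dvd (show 7 ∣ m from hd)
    omega) h
  have h1' : ¬ 7 ∣ n := h1
  have e : ∀ a k : ℕ, a % 7 = k % 7 → (a : ZMod 7) = (k : ZMod 7) := fun a k hk =>
    (ZMod.natCast_eq_natCast_iff' a k 7).2 hk
  have e' : ∀ a k : ℕ, (a : ZMod 7) = (k : ZMod 7) → a % 7 = k % 7 := fun a k hk =>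
    (ZMod.natCast_eq_natCast_iff' a k 7).1 hk
  have c3 : ((3 : ℕ) : ZMod 7) = 3 := rfl
  have c5 : ((5 : ℕ) : ZMod 7) = 5 := rfl
  have c6 : ((6 : ℕ) : ZMod 7) = 6 := rfl
  have h0' : (m : ZMod 7) = 3 ∨ (m : ZMod 7) = 5 ∨ (m : ZMod 7) = 6 :=
    h0.imp (fun h => (e m 3 h).trans c3) (Or.imp (fun h => (e m 5 h).trans c5)
      (fun h => (e m 6 h).trans c6))
  have h4 : (n : ZMod 7) = 3 ∨ (n : ZMod 7) = 5 ∨ (n : ZMod 7) = 6 :=
    key7 (m : ZMod 7) (n : ZMod 7) r h0'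
    (fun h5 => h1' ((ZMod.natCast_eq_zero_iff n 7).1 h5)) h2
  exact h4.imp (fun h => e' n 3 (h.trans c3.symm)) (Or.imp (fun h => e' n 5 (h.trans c5.symm))
    (fun h => e' n 6 (h.trans c6.symm)))

/-- level `15` -/
def L15 : Lv where
  bad := {pr2, pr3, pr5}
  P := fun n => n % 60 = 23 ∨ n % 60 = 47
  two := Finset.mem_insert_self _ _
  four := fun n h => by omega
  loc := fun m n hm hn h hl => by
    have h2 := Loc.mod8 (S := {pr2, pr3, pr5}) (by simp) hm hn (by omega) hl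
    have h3 := Loc.mod3 (S := {pr2, pr3, pr5}) (by simp) hm hn (by omega) hl
    have h5 := Loc.mod5 (S := {pr2, pr3, pr5}) (by simp) hm hn (by omega) hl
    omega

/-- level `21` -/
def L21 : Lv where
  bad := {pr2, pr3, pr7}
  P := fun n => n % 84 = 19 ∨ n % 84 = 31 ∨ n % 84 = 55
  two := Finset.mem_insert_self _ _
  four := fun n h => by omega
  loc := fun m n hm hn h hl => by
    have h2 := Loc.mod8 (S := {pr2, pr3, pr7}) (by simp) hm hn (by omega) hl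
    have h3 := Loc.mod3 (S := {pr2, pr3, pr7}) (by simp) hm hn (by omega) hl
    have h7 := Loc.mod7 (S := {pr2, pr3, pr7}) (by simp) hm hn (by omega) hl
    omega

/-- level `24` -/
def L24 : Lv where
  bad := {pr2, pr3}
  P := fun n => n % 24 = 11
  two := Finset.mem_insert_self _ _
  four := fun n h => by omega
  loc := fun m n hm hn h hl => by
    have h2 := Loc.mod8 (S := {pr2, pr3}) (by simp) hm hn (by omega) hl
    have h3 := Loc.mod3 (S := {pr2, pr3}) (by simp) hm hn (by omega) hl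
    omega

end Pool.Agent.Run7.h741.LC
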