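import Pool.Agent.Run7.h741.LC.Dens

/-!
# Arbitrary finite sets of places
-/

set_option autoImplicit false

open scoped Classical
open Finset Filter

namespace Pool.Agent.Run7.h741.LC

open Run7.h238.G15 (ee ee_mul sqf_ee ee_inj eq_of_sq exists_sqf D_ne gcd_dvd gcd_pos)
open Pool.Agent.Run7.h843.G (Nf)
open Run7.h843.L (gk gk_eq Qn)
open Pool.Agent.N969.P15 (Qc)
open Pool.Agent.Run7.h741.NM (low)
open Pool.Agent.N916.GB (eta eta_pos)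

theorem near_odd {p : ℕ} [hp : Fact p.Prime] (h2 : p ≠ 2) {m n : ℤ} (hm : Squarefree m)
    (h : ((p : ℤ) ^ 2) ∣ n - m) : Same p m n := by
  have h4 : IsUnit ((4 : ℤ) : ℤ_[p]) := by
    rw [PadicInt.isUnit_iff]
    refine le_antisymm (PadicInt.norm_le_one _) ?_
    by_contra hcon
    push Not at hcon
    have h1 := (PadicInt.norm_int_lt_one_iff_dvd (4 : ℤ)).1 hcon
    have h3 : p ∣ 2 ^ 2 := by exact_mod_cast h1
    exact h2 ((Nat.prime_dvd_prime_iff_eq hp.out Nat.prime_two).1 (hp.out.dvd_of_dvd_pow h3))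
  obtain ⟨u, hu⟩ := h4.exists_right_inv
  obtain ⟨k, hk⟩ := h
  obtain ⟨e, he⟩ := dvd_p p hm
  obtain ⟨z, hz⟩ := hens p (e * k * u)
  push_cast at hu
  have h1 : (n : ℤ_[p]) = m * z ^ 2 := by
    have h3 : n = m + (p : ℤ) ^ 2 * k := by linarith
    rw [h3, pow_two z, ← hz]
    push_cast
    linear_combination (p : ℤ_[p]) * k * he - (m : ℤ_[p]) * p * e * k * hu
  refine ⟨(m : ℚ_[p]) * z, ?_⟩
  have h5 := congrArg (fun w : ℤ_[p] => (w : ℚ_[p])) h1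
  push_cast at h5
  rw [h5]
  ring

/-- squarefree numbers in a class prime to the modulus, and in given square classes at other primes -/
theorem exists_loc {M0 r : ℕ} (h2 : 2 ∣ M0) (hM : 0 < M0) (hr : r.Coprime M0)
    (S : Finset Nat.Primes) (hS : ∀ p ∈ S, ¬ (p : ℕ) ∣ M0) {m : ℤ} (hm : Squarefree m) :
    ∃ n : ℕ, Squarefree n ∧ n % M0 = r % M0 ∧ Loc S m n := by
  obtain ⟨P, hPd⟩ : ∃ P, P = ∏ p ∈ S, (p : ℕ) ^ 2 := ⟨_, rfl⟩
  have hP0 : 0 < P := hPd ▸ Finset.prod_pos fun p _ => pow_pos p.2.pos 2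
  have hcop : Nat.Coprime M0 P := by
    rw [hPd]
    refine Nat.Coprime.prod_right fun p hp => Nat.Coprime.pow_right 2 ?_
    exact ((Nat.Prime.coprime_iff_not_dvd p.2).2 (hS p hp)).symm
  have hqP : ∀ q : ℕ, q.Prime → q ∣ P → ∃ p ∈ S, (p : ℕ) = q := by
    intro q hq hd
    rw [hPd] at hd
    obtain ⟨p, hp, h3⟩ := (Prime.dvd_finsetProd_iff hq.prime _).1 hd
    exact ⟨p, hp, ((Nat.prime_dvd_prime_iff_eq hq p.2).1 (hq.dvd_of_dvd_pow h3)).symm⟩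
  obtain ⟨x, hx1, hx2⟩ := Nat.chineseRemainder hcop r (m % (P : ℤ)).toNat
  have hPz : (0 : ℤ) < P := by exact_mod_cast hP0
  have hx3 : (P : ℤ) ∣ (x : ℤ) - m := by
    have h3 : (((m % (P : ℤ)).toNat : ℕ) : ℤ) = m % P := Int.toNat_of_nonneg
      (Int.emod_nonneg _ hPz.ne')
    have h4 : (P : ℤ) ∣ ((m % (P : ℤ)).toNat : ℤ) - x := (Nat.modEq_iff_dvd).1 hx2
    rw [h3] at h4
    have h5 : (P : ℤ) ∣ m - m % P := Int.dvd_self_sub_emod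
    have h6 : (x : ℤ) - m = -((m - m % P) + (m % P - x)) := by ring
    rw [h6]
    exact (dvd_neg).2 (dvd_add h5 h4)
  have hxM : ∀ q : ℕ, q.Prime → q ∣ M0 → ¬ q ∣ x := by
    intro q hq h3 h4
    have h5 : q ∣ r := by
      have h6 : x ≡ r [MOD q] := hx1.of_dvd h3
      exact (Nat.modEq_zero_iff_dvd).1 (h6.symm.trans ((Nat.modEq_zero_iff_dvd).2 h4))
    exact hq.one_lt.ne' (Nat.dvd_one.1 (hr ▸ Nat.dvd_gcd h5 h3))
  have hxP : ∀ q : ℕ, q.Prime → q ∣ P → ¬ q ^ 2 ∣ x := by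
    intro q hq h3 h4
    obtain ⟨p, hp, rfl⟩ := hqP q hq h3
    have h5 : ((p : ℕ) : ℤ) ^ 2 ∣ (P : ℤ) := by
      rw [hPd]
      exact_mod_cast Finset.dvd_prod_of_mem (fun p : Nat.Primes => (p : ℕ) ^ 2) hp
    have h6 : ((p : ℕ) : ℤ) ^ 2 ∣ (x : ℤ) := by exact_mod_cast h4
    have h7 : ((p : ℕ) : ℤ) ^ 2 ∣ m := by
      have := dvd_sub h6 (h5.trans hx3)
      rwa [sub_sub_cancel] at this
    exact (Nat.prime_iff_prime_int.1 hq).not_unit (hm _ (by rw [← pow_two]; exact h7))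
  have hx0 : x ≠ 0 := by
    rintro rfl
    exact hxM 2 Nat.prime_two h2 (dvd_zero _)
  obtain ⟨M, hMd⟩ : ∃ M, M = M0 * P := ⟨_, rfl⟩
  have hMM : 0 < M := hMd ▸ Nat.mul_pos hM hP0
  obtain ⟨h, hh⟩ : ∃ h, h = Nat.gcd x M := ⟨_, rfl⟩
  have hpos : 0 < h := hh ▸ Nat.gcd_pos_of_pos_left _ (Nat.pos_of_ne_zero hx0)
  obtain ⟨x1, hx1'⟩ : h ∣ x := hh ▸ Nat.gcd_dvd_left _ _
  have hhM : h ∣ M := hh ▸ Nat.gcd_dvd_right _ _
  have hc : Nat.Coprime x1 M := by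
    refine Nat.Coprime.symm (Nat.coprime_of_dvd fun q hq hqM hq1 => ?_)
    have hqx : q ∣ x := hx1' ▸ Dvd.dvd.mul_left hq1 _
    rw [hMd] at hqM
    rcases (hq.dvd_mul).1 hqM with h3 | h3
    · exact hxM q hq h3 hqx
    · refine hxP q hq h3 ?_
      have h5 : q ∣ h := hh ▸ Nat.dvd_gcd hqx (hMd ▸ hqM)
      rw [hx1', pow_two]
      exact Nat.mul_dvd_mul h5 hq1
  have hhs : Squarefree h := by
    rw [Nat.squarefree_iff_prime_squarefree]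
    intro q hq h3
    have h4 : q ∣ M := (Dvd.dvd.trans (dvd_mul_right q q) h3).trans hhM
    have h5 : q ^ 2 ∣ x := by
      rw [pow_two]
      exact h3.trans ⟨x1, hx1'⟩
    rw [hMd] at h4
    rcases (hq.dvd_mul).1 h4 with h6 | h6
    · exact hxM q hq h6 ((dvd_pow_self q two_ne_zero).trans h5)
    · exact hxP q hq h6 h5
  have hc' : (x1 % M).Coprime M := by
    rw [Nat.Coprime, ← Nat.gcd_rec, Nat.gcd_comm]
    exact hc
  have hM2 : 2 ∣ M := hMd ▸ Dvd.dvd.mul_right h2 P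
  have h1 := low hM2 hMM (Nat.mod_lt x1 hMM) hc' (100 * M ^ 2) le_rfl
  have h3 : 0 < ((Icc 1 (100 * M ^ 2)).filter fun D => Squarefree D ∧ D % M = x1 % M).card := by
    have h4 : (0 : ℝ) < 1 / (4 * M) * ((100 * M ^ 2 : ℕ) : ℝ) := by
      have : (0 : ℝ) < M := by exact_mod_cast hMM
      positivity
    have h5 := h4.trans_le h1
    exact_mod_cast h5
  obtain ⟨n', hn'⟩ := Finset.card_pos.1 h3
  rw [mem_filter] at hn'
  obtain ⟨-, hn1, hn2⟩ := hn'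
  have hcn : Nat.Coprime n' M := by
    rw [Nat.Coprime, Nat.gcd_comm, Nat.gcd_rec, hn2]
    exact hc'
  have hchn : Nat.Coprime h n' := (hcn.coprime_dvd_right hhM).symm
  have hmod : h * n' ≡ x [MOD M] := by
    rw [hx1']
    exact Nat.ModEq.mul_left h hn2
  refine ⟨h * n', (Nat.squarefree_mul hchn).2 ⟨hhs, hn1⟩, ?_, ?_⟩
  · exact (hmod.of_dvd (hMd ▸ dvd_mul_right _ _)).trans hx1
  · intro p hp
    haveI : Fact (p : ℕ).Prime := ⟨p.2⟩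
    have hp2 : (p : ℕ) ≠ 2 := by
      intro h4
      exact hS p hp (h4 ▸ h2)
    refine near_odd hp2 hm ?_
    have h5 : ((p : ℕ) : ℤ) ^ 2 ∣ (P : ℤ) := by
      rw [hPd]
      exact_mod_cast Finset.dvd_prod_of_mem (fun p : Nat.Primes => (p : ℕ) ^ 2) hp
    have h6 : (P : ℤ) ∣ ((h * n' : ℕ) : ℤ) - x := by
      have h7 : h * n' ≡ x [MOD P] := hmod.of_dvd (hMd ▸ dvd_mul_left _ _)
      exact (Nat.modEq_iff_dvd).1 h7.symm
    have h7 := dvd_add h6 hx3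
    rw [sub_add_sub_cancel] at h7
    exact h5.trans h7

/-- **the criterion in the families**: positive lower density, for every finite set of primes -/
theorem lower_any (L : Lv) {t : ℚ} (ht : t ≠ 0) (R : ℤ → Prop)
    (hR : ∀ (d : ℤ) (n : ℕ), Squarefree d → Squarefree n → L.P n → Rep t d n → Qc n → R d)
    (S : Finset Nat.Primes) {d : ℤ} {n0 : ℕ} (hd : Squarefree d) (h0 : Squarefree n0)
    (hP : L.P n0) (hr : Rep t d n0) :
    ∃ c : ℝ, 0 < c ∧ ∀ᶠ X : ℕ in atTop,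
      c * X ≤ ({e | e ∈ Fam S d ∧ cond e ≤ X ∧ R e}.ncard : ℝ) := by
  obtain ⟨S₀, hS₁, hS₂⟩ := exists_S L ht
  obtain ⟨h1, h2, c, hc, h3⟩ := main L ht (S₀ ∪ S) (hS₁.trans Finset.subset_union_left)
    (fun p hp => Finset.mem_union_left _ (hS₂ p hp)) d n0 hd h0 hP hr
  have h4 := h2 0
  rw [gk_zero] at h4
  have h5 := h4.eventually (lt_mem_nhds (half_lt_self eta_pos))
  have heta := eta_pos
  refine ⟨eta / 2 * c, by positivity, ?_⟩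
  filter_upwards [h3, h5, eventually_ge_atTop 1] with X g1 g2 g3
  have hX : (0 : ℝ) < X := by exact_mod_cast g3
  have g4 : (0 : ℝ) < ({e | e ∈ Fam (S₀ ∪ S) d ∧ cond e ≤ X}.ncard : ℝ) :=
    (mul_pos hc hX).trans_le g1
  rw [lt_div_iff₀ g4] at g2
  have g5 : {e | e ∈ Fam (S₀ ∪ S) d ∧ cond e ≤ X ∧ ∃ n : ℕ, Squarefree n ∧ L.P n ∧ Rep t e n ∧
      Nf n = 2 ^ (0 + 1)}.ncard ≤ {e | e ∈ Fam S d ∧ cond e ≤ X ∧ R e}.ncard := by
    refine Set.ncard_le_ncard (fun e he => ?_) ?_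
    · obtain ⟨a1, a2, n, a3, a4, a5, a6⟩ := he
      refine ⟨⟨a1.1, a1.2.1, a1.2.2.mono Finset.subset_union_right⟩, a2,
        hR e n a1.1 a3 a4 a5 ?_⟩
      refine (Nf_two ?_).1 a6
      have := L.four n a4
      omega
    · refine (finite_cond X (fun e => e ∈ Fam S d ∧ R e)).subset fun e he => ?_
      exact ⟨⟨he.1, he.2.2⟩, he.2.1⟩
  calc eta / 2 * c * X = eta / 2 * (c * X) := by ring
    _ ≤ eta / 2 * ({e | e ∈ Fam (S₀ ∪ S) d ∧ cond e ≤ X}.ncard : ℝ) := by gcongr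
    _ ≤ ({e | e ∈ Fam (S₀ ∪ S) d ∧ cond e ≤ X ∧ ∃ n : ℕ, Squarefree n ∧ L.P n ∧ Rep t e n ∧
      Nf n = 2 ^ (0 + 1)}.ncard : ℝ) := g2.le
    _ ≤ _ := by exact_mod_cast g5

/-- arbitrary local conditions away from the bad primes -/
theorem exists_mem {M0 r : ℕ} (h2 : 2 ∣ M0) (hM : 0 < M0) (hr : r.Coprime M0)
    {t : ℚ} (ht : t ≠ 0) (S : Finset Nat.Primes) (hS : ∀ p ∈ S, ¬ (p : ℕ) ∣ M0) {d : ℤ}
    (hd : Squarefree d) :
    ∃ (e : ℤ) (n : ℕ), Squarefree e ∧ Squarefree n ∧ n % M0 = r % M0 ∧ Rep t e n ∧ Loc S d e := by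
  obtain ⟨D, hD, u, hu, htD⟩ := exists_sqf ht
  have hD0 : D ≠ 0 := hD.ne_zero
  have hDd : (-(D * d : ℤ) : ℚ) ≠ 0 := by
    have : D * d ≠ 0 := mul_ne_zero hD0 hd.ne_zero
    exact_mod_cast neg_ne_zero.2 this
  obtain ⟨m, hm, w, hw, hmw⟩ := exists_sqf hDd
  obtain ⟨n, hn, hnr, hnl⟩ := exists_loc h2 hM hr S hS hm
  refine ⟨ee D n, n, sqf_ee hD hn, hn, hnr, (rep_iff hD hu htD (sqf_ee hD hn) hn).2 rfl, ?_⟩
  intro p hp
  haveI : Fact (p : ℕ).Prime := ⟨p.2⟩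
  have h3 : IsSquare ((m : ℚ_[(p : ℕ)]) * ((n : ℤ) : ℚ_[(p : ℕ)])) := hnl p hp
  obtain ⟨z, hz⟩ := h3
  have e1 := ee_mul (D := D) (n := n)
  have hx : D / (Nat.gcd n D.natAbs : ℤ) ≠ 0 := D_ne hD
  set x := D / (Nat.gcd n D.natAbs : ℤ)
  have e2 : (ee D n : ℚ_[(p : ℕ)]) * D = -((n : ℤ) : ℚ_[(p : ℕ)]) * (x : ℚ_[(p : ℕ)]) ^ 2 := by
    exact_mod_cast congrArg (Int.cast : ℤ → ℚ_[(p : ℕ)]) e1
  have e3 : -((D : ℚ_[(p : ℕ)]) * d) = m * (w : ℚ_[(p : ℕ)]) ^ 2 := by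
    have := congrArg (fun q : ℚ => (q : ℚ_[(p : ℕ)])) hmw
    simpa using this
  have hD' : (D : ℚ_[(p : ℕ)]) ≠ 0 := by exact_mod_cast hD0
  refine ⟨w * x * z / D, ?_⟩
  field_simp
  linear_combination (D : ℚ_[(p : ℕ)]) * d * e2 + ((n : ℤ) : ℚ_[(p : ℕ)]) * x ^ 2 * e3 +
    (w : ℚ_[(p : ℕ)]) ^ 2 * x ^ 2 * hz

end Pool.Agent.Run7.h741.LC
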