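import Pool.Agent.Run7.h741.LC.Loc
import Pool.Agent.Run7.h843.G8

/-!
# The law of the numbers of solvable factorizations with local conditions
-/

set_option autoImplicit false

open scoped Classical
open Finset Filter

namespace Pool.Agent.Run7.h741.LC

open Pool.Agent.Run7.h741.NM (card_eq low)
open Pool.Agent.Run7.h843.G (Nf Gdk Gdk_iff_Nf OkM t_DQk S_DQk)
open Run7.h843.L (gk)

/-- the same square class at the prime `p` -/
def SamP (p : Nat.Primes) (a b : ℤ) : Prop :=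
  haveI : Fact (p : ℕ).Prime := ⟨p.2⟩
  Same (p : ℕ) a b

/-- the same square classes at the primes of `S` -/
def Loc (S : Finset Nat.Primes) (a b : ℤ) : Prop := ∀ p ∈ S, SamP p a b

theorem Loc.refl (S : Finset Nat.Primes) (a : ℤ) : Loc S a a := fun p _ => by
  have : Fact (p : ℕ).Prime := ⟨p.2⟩
  exact Same.refl _ _

theorem Loc.symm {S : Finset Nat.Primes} {a b : ℤ} (h : Loc S a b) : Loc S b a := fun p hp => by
  have : Fact (p : ℕ).Prime := ⟨p.2⟩
  exact Same.symm (h p hp)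

theorem Loc.trans {S : Finset Nat.Primes} {a b c : ℤ} (hb : b ≠ 0) (h : Loc S a b)
    (h' : Loc S b c) : Loc S a c := fun p hp => by
  have : Fact (p : ℕ).Prime := ⟨p.2⟩
  exact Same.trans hb (h p hp) (h' p hp)

theorem Loc.mono {S S' : Finset Nat.Primes} (hS : S ⊆ S') {a b : ℤ} (h : Loc S' a b) :
    Loc S a b := fun p hp => h p (hS hp)

theorem Loc.dvd {S : Finset Nat.Primes} {a b : ℤ} (ha : Squarefree a) (hb : Squarefree b)
    (h : Loc S a b) {p : Nat.Primes} (hp : p ∈ S) (hd : ((p : ℕ) : ℤ) ∣ a) : ((p : ℕ) : ℤ) ∣ b := by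
  have : Fact (p : ℕ).Prime := ⟨p.2⟩
  exact Same.dvd ha hb (h p hp) hd

/-- the modulus -/
def MM (S : Finset Nat.Primes) : ℕ := 4 * ∏ p ∈ S, (p : ℕ) ^ 2

theorem MM_pos (S : Finset Nat.Primes) : 0 < MM S :=
  Nat.mul_pos (by norm_num) (Finset.prod_pos fun p _ => pow_pos p.2.pos 2)

theorem dvd_MM {S : Finset Nat.Primes} {p : Nat.Primes} (hp : p ∈ S) : 4 * (p : ℕ) ^ 2 ∣ MM S :=
  Nat.mul_dvd_mul_left 4 (Finset.dvd_prod_of_mem (fun p : Nat.Primes => (p : ℕ) ^ 2) hp)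

theorem eight_dvd {S : Finset Nat.Primes} (h2 : (⟨2, Nat.prime_two⟩ : Nat.Primes) ∈ S) :
    8 ∣ MM S := (by norm_num : 8 ∣ 4 * 2 ^ 2).trans (dvd_MM h2)

/-- the local conditions depend on the number modulo `MM S` -/
theorem loc_of_dvd {S : Finset Nat.Primes} {m n : ℤ} (hm : Squarefree m)
    (h : (MM S : ℤ) ∣ n - m) : Loc S m n := fun p hp => by
  have : Fact (p : ℕ).Prime := ⟨p.2⟩
  refine near_same hm ((?_ : (4 * ((p : ℕ) : ℤ) ^ 2) ∣ (MM S : ℤ)).trans h)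
  exact_mod_cast dvd_MM hp

theorem sqf_cast {n : ℕ} : Squarefree (n : ℤ) ↔ Squarefree n := Int.squarefree_natCast

/-- the classes -/
noncomputable def KK (S : Finset Nat.Primes) (n0 : ℕ) : Finset ℕ :=
  (range (MM S)).filter fun a => ∃ m : ℕ, Squarefree m ∧ Loc S n0 m ∧ m % MM S = a

theorem mem_KK {S : Finset Nat.Primes} {n0 n : ℕ} (hn : Squarefree n) :
    n % MM S ∈ KK S n0 ↔ Loc S n0 n := by
  unfold KK
  rw [mem_filter, mem_range]
  constructor
  · rintro ⟨-, m, hm, h1, h2⟩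
    have hd : (MM S : ℤ) ∣ (n : ℤ) - m := (Nat.modEq_iff_dvd).1 h2
    exact h1.trans (by exact_mod_cast hm.ne_zero) (loc_of_dvd (sqf_cast.2 hm) hd)
  · intro h
    exact ⟨Nat.mod_lt _ (MM_pos S), n, hn, h, rfl⟩

/-- a lower bound for the number of the squarefree numbers with the local conditions -/
theorem low_loc {S : Finset Nat.Primes} (h2 : (⟨2, Nat.prime_two⟩ : Nat.Primes) ∈ S) {n0 : ℕ}
    (h0 : Squarefree n0) : ∃ c : ℝ, 0 < c ∧ ∃ X₀ : ℕ, ∀ X : ℕ, X₀ ≤ X →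
    c * X ≤ (((Icc 1 X).filter fun n : ℕ => Squarefree n ∧ Loc S n0 n).card : ℝ) := by
  obtain ⟨M, hMd⟩ : ∃ M, M = MM S := ⟨_, rfl⟩
  have hM8 : 8 ∣ M := hMd ▸ eight_dvd h2
  have hM0 : 0 < M := hMd ▸ MM_pos S
  have hM2 : 2 ∣ M := Dvd.dvd.trans (by norm_num) hM8
  obtain ⟨h, hh⟩ : ∃ h, h = Nat.gcd n0 M := ⟨_, rfl⟩
  have hn0 : 0 < n0 := Nat.pos_of_ne_zero h0.ne_zero
  have hpos : 0 < h := hh ▸ Nat.gcd_pos_of_pos_left _ hn0
  obtain ⟨n1, hn1⟩ : h ∣ n0 := hh ▸ Nat.gcd_dvd_left _ _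
  have hhM : h ∣ M := hh ▸ Nat.gcd_dvd_right _ _
  have hc1 : Nat.Coprime h n1 := Nat.coprime_of_squarefree_mul (hn1 ▸ h0)
  have hhs : Squarefree h := h0.squarefree_of_dvd ⟨n1, hn1⟩
  have hc : Nat.Coprime n1 M := by
    refine Nat.Coprime.symm (Nat.coprime_of_dvd fun p hp hpM hp1 => ?_)
    have h3 : p ∣ h := hh ▸ Nat.dvd_gcd (hn1 ▸ Dvd.dvd.mul_left hp1 _) hpM
    have := hc1
    exact Nat.Prime.one_lt hp |>.ne' (Nat.dvd_one.1 (hc1 ▸ Nat.dvd_gcd h3 hp1))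
  have hc' : (n1 % M).Coprime M := by
    rw [Nat.Coprime, ← Nat.gcd_rec, Nat.gcd_comm]
    exact hc
  refine ⟨1 / (8 * M * h), by positivity, h * (100 * M ^ 2 + 1), fun X hX => ?_⟩
  have hX1 : 100 * M ^ 2 + 1 ≤ X / h := by
    rw [Nat.le_div_iff_mul_le hpos, mul_comm]
    exact hX
  have h1 := low hM2 hM0 (Nat.mod_lt n1 hM0) hc' (X / h) (by omega)
  have h3 : (((Icc 1 (X / h)).filter fun D => Squarefree D ∧ D % M = n1 % M).card : ℝ) ≤
      (((Icc 1 X).filter fun n : ℕ => Squarefree n ∧ Loc S n0 n).card : ℝ) := by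
    refine Nat.cast_le.2 (Finset.card_le_card_of_injOn (fun n => h * n) ?_ ?_)
    · intro n hn
      rw [coe_filter, Set.mem_setOf_eq, mem_Icc] at hn ⊢
      obtain ⟨⟨a1, a2⟩, a3, a4⟩ := hn
      have hcn : Nat.Coprime n M := by
        rw [Nat.Coprime, Nat.gcd_comm, Nat.gcd_rec, a4]
        exact hc'
      have hchn : Nat.Coprime h n := (hcn.coprime_dvd_right hhM).symm
      refine ⟨⟨Nat.mul_pos hpos a1, ?_⟩, (Nat.squarefree_mul hchn).2 ⟨hhs, a3⟩, ?_⟩
      · calc h * n ≤ h * (X / h) := Nat.mul_le_mul_left _ a2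
          _ ≤ X := Nat.mul_div_le X h
      · refine loc_of_dvd (sqf_cast.2 h0) ?_
        rw [← hMd]
        have : h * n ≡ n0 [MOD M] := by
          rw [hn1]
          exact Nat.ModEq.mul_left h a4
        exact (Nat.modEq_iff_dvd).1 this.symm
    · intro a _ b _ hab
      exact Nat.eq_of_mul_eq_mul_left hpos hab
  refine le_trans ?_ (h1.trans h3)
  have hMr : (0 : ℝ) < M := by exact_mod_cast hM0
  have hhr : (0 : ℝ) < h := by exact_mod_cast hpos
  have h4 : (X : ℝ) ≤ 2 * h * ((X / h : ℕ) : ℝ) := by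
    have h5 : X < h * (X / h + 1) := by
      have := Nat.lt_mul_div_succ X hpos
      exact this
    have h6 : h * (X / h + 1) ≤ 2 * h * (X / h) := by
      have : X / h + 1 ≤ 2 * (X / h) := by omega
      calc h * (X / h + 1) ≤ h * (2 * (X / h)) := Nat.mul_le_mul_left _ this
        _ = 2 * h * (X / h) := by ring
    exact_mod_cast h5.le.trans h6
  calc 1 / (8 * M * h) * (X : ℝ) ≤ 1 / (8 * M * h) * (2 * h * ((X / h : ℕ) : ℝ)) := by gcongr
    _ = 1 / (4 * M) * ((X / h : ℕ) : ℝ) := by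
      field_simp
      ring

/-- **The law of the numbers of solvable factorizations with local conditions.** -/
theorem dens_loc {S : Finset Nat.Primes} (h2 : (⟨2, Nat.prime_two⟩ : Nat.Primes) ∈ S) {n0 : ℕ}
    (h0 : Squarefree n0) (h4 : n0 % 4 = 3) (k : ℕ) :
    Tendsto (fun X : ℕ => (((Icc 1 X).filter fun n : ℕ => Squarefree n ∧ Loc S n0 n ∧
      Nf n = 2 ^ (k + 1)).card : ℝ) /
      (((Icc 1 X).filter fun n : ℕ => Squarefree n ∧ Loc S n0 n).card : ℝ)) atTop (nhds (gk k)) := by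
  have hm4 : ∀ n : ℕ, Squarefree n → Loc S n0 n → n % 4 = 3 := by
    intro n hn hl
    have : Fact (Nat.Prime 2) := ⟨Nat.prime_two⟩
    have h5 : Same 2 (n0 : ℤ) n := hl ⟨2, Nat.prime_two⟩ h2
    have h6 : ¬ (2 : ℤ) ∣ n := by
      intro hd
      have := Same.dvd (p := 2) (sqf_cast.2 hn) (sqf_cast.2 h0) h5.symm (by exact_mod_cast hd)
      push_cast at this
      omega
    have h7 := Same.mod_eight (by omega) (by omega) h5
    omega
  obtain ⟨M, hMd⟩ : ∃ M, M = MM S := ⟨_, rfl⟩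
  have hM8 : 8 ∣ M := hMd ▸ eight_dvd h2
  have hM0 : 0 < M := hMd ▸ MM_pos S
  have hM2 : 2 ∣ M := Dvd.dvd.trans (by norm_num) hM8
  obtain ⟨K, hKd⟩ : ∃ K, K = KK S n0 := ⟨_, rfl⟩
  have hKm : ∀ n : ℕ, Squarefree n → (n % M ∈ K ↔ Loc S n0 n) := by
    intro n hn
    rw [hMd, hKd]
    exact mem_KK hn
  have hok : OkM M false 0 0 K := by
    refine ⟨fun _ => rfl, fun h => absurd h (by decide), fun a ha => ?_⟩
    rw [if_pos rfl]
    rw [hKd] at ha
    unfold KK at ha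
    rw [mem_filter, mem_range, ← hMd] at ha
    obtain ⟨a1, m, a2, a3, a4⟩ := ha
    refine ⟨a1, ?_⟩
    have h5 := hm4 m a2 a3
    rw [← a4, Nat.mod_mod_of_dvd m (Dvd.dvd.trans (by norm_num) hM8)]
    exact h5
  have hK : ∀ b ∈ K, b % 2 = 1 := by
    intro b hb
    have h2 := (hok.2.2 b hb).2
    rw [if_pos rfl] at h2
    omega
  obtain ⟨c, hc0, X₁, hc⟩ := low_loc h2 h0
  rw [Metric.tendsto_atTop]
  intro ε hε
  obtain ⟨X₀, hX₀⟩ := t_DQk k M hM8 hM0 false 0 0 K hok (ε / 2 * c) (by positivity)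
  refine ⟨max (max X₀ X₁) 1, fun X hX => ?_⟩
  have h1 := hX₀ X (((le_max_left _ _).trans (le_max_left _ _)).trans hX)
  have e1 := card_eq hM2 hK X (Gdk k false 0 0)
  have e2 := card_eq hM2 hK X (fun _ => True)
  rw [Finset.filter_true] at e2
  simp only [and_true] at e2
  rw [← e1, ← e2] at h1
  have f1 : ((Icc 1 X).filter fun D => Squarefree D ∧ D % M ∈ K ∧
      Gdk k false 0 0 D.primeFactors) = (Icc 1 X).filter fun n : ℕ => Squarefree n ∧ Loc S n0 n ∧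
      Nf n = 2 ^ (k + 1) := by
    refine filter_congr fun n _ => ?_
    constructor
    · rintro ⟨a1, a2, a3⟩
      have a4 := (hKm n a1).1 a2
      exact ⟨a1, a4, (Gdk_iff_Nf k a1 (hm4 n a1 a4)).1 a3⟩
    · rintro ⟨a1, a2, a3⟩
      exact ⟨a1, (hKm n a1).2 a2, (Gdk_iff_Nf k a1 (hm4 n a1 a2)).2 a3⟩
  have f2 : ((Icc 1 X).filter fun D => Squarefree D ∧ D % M ∈ K) =
      (Icc 1 X).filter fun n : ℕ => Squarefree n ∧ Loc S n0 n := by
    refine filter_congr fun n _ => ?_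
    exact ⟨fun h => ⟨h.1, (hKm n h.1).1 h.2⟩, fun h => ⟨h.1, (hKm n h.1).2 h.2⟩⟩
  rw [f1, f2] at h1
  have h3 := hc X (((le_max_right _ _).trans (le_max_left _ _)).trans hX)
  have hX1 : (0 : ℝ) < X := by
    have h4 : 1 ≤ X := (le_max_right _ _).trans hX
    exact_mod_cast h4
  set L : ℝ := (((Icc 1 X).filter fun n : ℕ => Squarefree n ∧ Loc S n0 n).card : ℝ) with hL
  have hL0 : 0 < L := by
    have : 0 < c * X := by positivity
    linarith
  rw [Real.dist_eq, div_sub' hL0.ne', abs_div, abs_of_pos hL0, div_lt_iff₀ hL0]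
  have h4' : ε / 2 * c * X ≤ ε / 2 * L := by
    calc ε / 2 * c * X = ε / 2 * (c * X) := by ring
      _ ≤ ε / 2 * L := by gcongr
  have h5 : ε / 2 * L < ε * L := by
    apply mul_lt_mul_of_pos_right _ hL0
    linarith
  calc |(((Icc 1 X).filter fun n : ℕ => Squarefree n ∧ Loc S n0 n ∧
      Nf n = 2 ^ (k + 1)).card : ℝ) - L * gk k| = |(((Icc 1 X).filter fun n : ℕ => Squarefree n ∧
        Loc S n0 n ∧ Nf n = 2 ^ (k + 1)).card : ℝ) - gk k * L| := by rw [mul_comm L]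
    _ ≤ ε / 2 * c * X := h1
    _ < ε * L := by linarith

end Pool.Agent.Run7.h741.LC
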