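import Pool.Agent.Run7.h741.LC.Fam
import Pool.Agent.N969.P15.Defs

/-!
# The proportions in the families with local conditions
-/

set_option autoImplicit false

open scoped Classical
open Finset Filter

namespace Pool.Agent.Run7.h741.LC

open Run7.h238.G15 (ee ee_mul sqf_ee ee_inj eq_of_sq exists_sqf D_ne gcd_dvd gcd_pos)
open Pool.Agent.Run7.h843.G (Nf)
open Run7.h843.L (gk gk_eq Qn)
open Pool.Agent.N969.P15 (Qc)

/-- two solvable factorizations -/
theorem Nf_two {m : ℕ} (h1 : 1 < m) : Nf m = 2 ↔ Qc m := by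
  set S : Set (ℕ × ℕ) := {s | s.1 * s.2 = m ∧ (∀ p ∈ s.2.primeFactors, jacobiSym s.1 p = 1) ∧
    ∀ p ∈ s.1.primeFactors, jacobiSym s.2 p = 1} with hS
  have hc : Nf m = S.ncard := by
    rw [← Nat.card_coe_set_eq]
    rfl
  have m1 : (1, m) ∈ S := by
    refine ⟨one_mul m, fun p _ => ?_, fun p hp => ?_⟩
    · show jacobiSym ((1 : ℕ) : ℤ) p = 1
      rw [Nat.cast_one, jacobiSym.one_left]
    · simp at hp
  have m2 : (m, 1) ∈ S := by
    refine ⟨mul_one m, fun p hp => ?_, fun p _ => ?_⟩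
    · simp at hp
    · show jacobiSym ((1 : ℕ) : ℤ) p = 1
      rw [Nat.cast_one, jacobiSym.one_left]
  have hne : ((1, m) : ℕ × ℕ) ≠ (m, 1) := by
    intro h
    have := congrArg Prod.fst h
    simp only at this
    omega
  have hsub : ({(1, m), (m, 1)} : Set (ℕ × ℕ)) ⊆ S := by
    intro s hs
    rcases hs with rfl | hs
    · exact m1
    · rw [Set.mem_singleton_iff.1 hs]
      exact m2
  have h2 : ({(1, m), (m, 1)} : Set (ℕ × ℕ)).ncard = 2 := Set.ncard_pair hne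
  rw [hc]
  constructor
  · intro h b c hbc hb hc
    have hfin : S.Finite := Set.finite_of_ncard_ne_zero (by omega)
    have he := Set.eq_of_subset_of_ncard_le hsub (by omega) hfin
    have hm : (b, c) ∈ S := ⟨hbc, hb, hc⟩
    rw [← he] at hm
    rcases hm with h3 | h3
    · exact Or.inl (congrArg Prod.fst h3)
    · exact Or.inr (congrArg Prod.snd (Set.mem_singleton_iff.1 h3))
  · intro h
    have he : S = {(1, m), (m, 1)} := by
      refine Set.Subset.antisymm (fun s hs => ?_) hsub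
      obtain ⟨b, c⟩ := s
      obtain ⟨h3, h4, h5⟩ := hs
      simp only at h3 h4 h5
      rcases h b c h3 h4 h5 with rfl | rfl
      · left
        rw [one_mul] at h3
        rw [h3]
      · right
        rw [mul_one] at h3
        rw [h3]
        rfl
    rw [he, h2]

theorem gk_zero : gk 0 = Pool.Agent.N916.GB.eta := by
  rw [gk_eq]
  unfold Qn
  simp

section

variable {D : ℤ} {S : Finset Nat.Primes} {n0 : ℕ}

theorem div_pos' (hD : Squarefree D) (h0 : Squarefree n0) :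
    0 < kap (ee D n0) * (D.natAbs / Nat.gcd n0 D.natAbs) :=
  Nat.mul_pos (kap_pos _) (Nat.div_pos
    (Nat.le_of_dvd (Int.natAbs_pos.2 hD.ne_zero) (Nat.gcd_dvd_right _ _)) (gcd_pos h0))

theorem YY_tendsto (hD : Squarefree D) (h0 : Squarefree n0) : Tendsto (YY D n0) atTop atTop := by
  have hp := div_pos' hD h0
  refine tendsto_atTop_atTop.2 fun b => ⟨b * (kap (ee D n0) * (D.natAbs / Nat.gcd n0 D.natAbs)),
    fun X hX => ?_⟩
  unfold YY
  have h1 : b ≤ X / (kap (ee D n0) * (D.natAbs / Nat.gcd n0 D.natAbs)) :=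
    (Nat.le_div_iff_mul_le hp).2 hX
  exact h1.trans (Nat.le_mul_of_pos_left _ (gcd_pos h0))

theorem YY_lower (hD : Squarefree D) (h0 : Squarefree n0) :
    ∃ c : ℝ, 0 < c ∧ ∀ᶠ X : ℕ in atTop, c * X ≤ (YY D n0 X : ℝ) := by
  have hp := div_pos' hD h0
  set q := kap (ee D n0) * (D.natAbs / Nat.gcd n0 D.natAbs) with hq
  have hqr : (0 : ℝ) < q := by exact_mod_cast hp
  refine ⟨1 / (2 * q), by positivity, ?_⟩
  filter_upwards [eventually_ge_atTop q] with X hX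
  have h1 : 1 ≤ X / q := (Nat.le_div_iff_mul_le hp).2 (by omega)
  have h2 : X < q * (X / q + 1) := Nat.lt_mul_div_succ X hp
  have h3 : X / q ≤ YY D n0 X := Nat.le_mul_of_pos_left _ (gcd_pos h0)
  have h4 : X ≤ 2 * q * YY D n0 X := by
    calc X ≤ q * (X / q + 1) := h2.le
      _ ≤ q * (2 * (X / q)) := Nat.mul_le_mul_left _ (by omega)
      _ = 2 * q * (X / q) := by ring
      _ ≤ 2 * q * YY D n0 X := Nat.mul_le_mul_left _ h3
  have h5 : (X : ℝ) ≤ 2 * q * (YY D n0 X : ℝ) := by exact_mod_cast h4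
  calc 1 / (2 * (q : ℝ)) * X ≤ 1 / (2 * (q : ℝ)) * (2 * q * (YY D n0 X : ℝ)) := by gcongr
    _ = YY D n0 X := by field_simp

theorem card_of {P Q : ℕ → Prop} (i1 : DecidablePred P) (i2 : DecidablePred Q) (s : Finset ℕ)
    (h : ∀ n, P n ↔ Q n) : (@Finset.filter _ P i1 s).card = (@Finset.filter _ Q i2 s).card := by
  have : @Finset.filter _ P i1 s = @Finset.filter _ Q i2 s := by
    ext n
    rw [mem_filter, mem_filter, h n]
  rw [this]

theorem count' (hD : Squarefree D) (h2 : (⟨2, Nat.prime_two⟩ : Nat.Primes) ∈ S)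
    (hS : ∀ p : Nat.Primes, ((p : ℕ) : ℤ) ∣ D → p ∈ S) (h0 : Squarefree n0) (X : ℕ) :
    {e | e ∈ Fam S (ee D n0) ∧ cond e ≤ X}.ncard =
      ((Icc 1 (YY D n0 X)).filter fun n : ℕ => Squarefree n ∧ Loc S n0 n).card := by
  have e2 := count hD h2 hS h0 (fun _ => True) (fun _ => True) (fun _ _ _ => Iff.rfl) X
  have e3 : {e | e ∈ Fam S (ee D n0) ∧ cond e ≤ X ∧ True} =
      {e | e ∈ Fam S (ee D n0) ∧ cond e ≤ X} := by
    ext e
    exact ⟨fun h => ⟨h.1, h.2.1⟩, fun h => ⟨h.1, h.2, trivial⟩⟩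
  rw [e3] at e2
  rw [e2]
  exact card_of _ _ _ fun n => ⟨fun h => ⟨h.1, h.2.1⟩, fun h => ⟨h.1, h.2, trivial⟩⟩

theorem div_congr {a b c d : ℕ} (h1 : a = c) (h2 : b = d) : (a : ℝ) / b = (c : ℝ) / d := by
  rw [h1, h2]

/-- **the law in the family** -/
theorem law (hD : Squarefree D) (h2 : (⟨2, Nat.prime_two⟩ : Nat.Primes) ∈ S)
    (hS : ∀ p : Nat.Primes, ((p : ℕ) : ℤ) ∣ D → p ∈ S) (h0 : Squarefree n0) (h4 : n0 % 4 = 3)
    (k : ℕ) (Q : ℤ → Prop)
    (hQ : ∀ n : ℕ, Squarefree n → Loc S n0 n → (Q (ee D n) ↔ Nf n = 2 ^ (k + 1))) :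
    Tendsto (fun X : ℕ => ({e | e ∈ Fam S (ee D n0) ∧ cond e ≤ X ∧ Q e}.ncard : ℝ) /
      ({e | e ∈ Fam S (ee D n0) ∧ cond e ≤ X}.ncard : ℝ)) atTop (nhds (gk k)) := by
  have h1 := (dens_loc h2 h0 h4 k).comp (YY_tendsto hD h0)
  refine h1.congr fun X => ?_
  have e1 := count hD h2 hS h0 Q (fun n => Nf n = 2 ^ (k + 1)) hQ X
  exact div_congr ((card_of _ _ _ fun n => Iff.rfl).trans e1.symm)
    ((card_of _ _ _ fun n => Iff.rfl).trans (count' hD h2 hS h0 X).symm)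

/-- the family has positive lower density -/
theorem fam_lower (hD : Squarefree D) (h2 : (⟨2, Nat.prime_two⟩ : Nat.Primes) ∈ S)
    (hS : ∀ p : Nat.Primes, ((p : ℕ) : ℤ) ∣ D → p ∈ S) (h0 : Squarefree n0) :
    ∃ c : ℝ, 0 < c ∧ ∀ᶠ X : ℕ in atTop,
      c * X ≤ ({e | e ∈ Fam S (ee D n0) ∧ cond e ≤ X}.ncard : ℝ) := by
  obtain ⟨c, hc, X₀, h1⟩ := low_loc h2 h0
  obtain ⟨c', hc', h3⟩ := YY_lower hD h0
  refine ⟨c * c', by positivity, ?_⟩
  filter_upwards [h3, (YY_tendsto hD h0).eventually_ge_atTop X₀] with X hX hY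
  rw [count' hD h2 hS h0 X]
  calc c * c' * X = c * (c' * X) := by ring
    _ ≤ c * (YY D n0 X : ℝ) := by gcongr
    _ ≤ _ := h1 _ hY

end

/-! ### The levels -/

/-- the class of the numbers `n` of a level, a union of classes modulo squares at the primes of `bad` -/
structure Lv where
  bad : Finset Nat.Primes
  P : ℕ → Prop
  two : (⟨2, Nat.prime_two⟩ : Nat.Primes) ∈ bad
  four : ∀ n, P n → n % 4 = 3
  loc : ∀ m n : ℕ, Squarefree m → Squarefree n → P m → Loc bad m n → P n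

/-- the twist by `d` of the curve with parameter `t` is the twist by `-n` of the base curve -/
def Rep (t : ℚ) (d : ℤ) (n : ℕ) : Prop := ∃ v : ℚ, v ≠ 0 ∧ t * d = -n * v ^ 2

theorem rep_iff {t : ℚ} {D : ℤ} (hD : Squarefree D) {u : ℚ} (hu : u ≠ 0) (ht : t = D * u ^ 2)
    {d : ℤ} (hd : Squarefree d) {n : ℕ} (hn : Squarefree n) : Rep t d n ↔ d = ee D n := by
  have hD0 : D ≠ 0 := hD.ne_zero
  constructor
  · rintro ⟨v, hv, h⟩
    rw [ht] at h
    have hn0 : (0 : ℚ) < n := by exact_mod_cast Nat.pos_of_ne_zero hn.ne_zero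
    have h1 : d * D < 0 := by
      have h2 : ((d * D : ℤ) : ℚ) * u ^ 2 < 0 := by
        push_cast
        have h3 : 0 < (n : ℚ) * v ^ 2 := by positivity
        nlinarith
      have h3 : 0 < u ^ 2 := by positivity
      have h4 : ((d * D : ℤ) : ℚ) < 0 := by
        by_contra hcon
        push Not at hcon
        nlinarith [mul_nonneg hcon h3.le]
      exact_mod_cast h4
    obtain ⟨m, hm, rfl⟩ := exists_n hD hd h1
    have e1 := ee_mul (D := D) (n := m)
    have hx : D / (Nat.gcd m D.natAbs : ℤ) ≠ 0 := D_ne hD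
    set x := D / (Nat.gcd m D.natAbs : ℤ)
    have e2 : (ee D m : ℚ) * D = -(m : ℚ) * (x : ℚ) ^ 2 := by exact_mod_cast e1
    have hx' : (x : ℚ) ≠ 0 := by exact_mod_cast hx
    have e3 : (m : ℚ) * (x * u) ^ 2 = n * v ^ 2 := by
      linear_combination (u ^ 2) * e2 - h
    have e4 : (m : ℚ) * n = (n * v / (x * u)) ^ 2 := by
      field_simp
      linear_combination e3
    have e5 : IsSquare ((m * n : ℕ) : ℚ) := ⟨n * v / (x * u), by push_cast; rw [e4]; ring⟩
    rw [Rat.isSquare_natCast_iff] at e5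
    obtain ⟨c, hc⟩ := e5
    have hmn : m = n := by
      have hc0 : c ≠ 0 := by
        rintro rfl
        rw [mul_zero] at hc
        exact mul_ne_zero hm.ne_zero hn.ne_zero hc
      refine eq_of_sq hm hn hn.ne_zero hc0 ?_
      calc m * n ^ 2 = (m * n) * n := by ring
        _ = n * c ^ 2 := by rw [hc]; ring
    rw [hmn]
  · rintro rfl
    have e1 := ee_mul (D := D) (n := n)
    have hx : D / (Nat.gcd n D.natAbs : ℤ) ≠ 0 := D_ne hD
    set x := D / (Nat.gcd n D.natAbs : ℤ)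
    have e2 : (ee D n : ℚ) * D = -(n : ℚ) * (x : ℚ) ^ 2 := by exact_mod_cast e1
    have hx' : (x : ℚ) ≠ 0 := by exact_mod_cast hx
    refine ⟨x * u, mul_ne_zero hx' hu, ?_⟩
    rw [ht]
    linear_combination (u ^ 2) * e2

theorem odd_val {t : ℚ} {D : ℤ} (hD : Squarefree D) {u : ℚ} (hu : u ≠ 0) (ht : t = D * u ^ 2)
    {p : Nat.Primes} (hp : ((p : ℕ) : ℤ) ∣ D) : Odd (padicValRat (p : ℕ) t) := by
  have : Fact (p : ℕ).Prime := ⟨p.2⟩
  have hpz : Prime ((p : ℕ) : ℤ) := Nat.prime_iff_prime_int.1 p.2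
  have hD0 : (D : ℚ) ≠ 0 := by exact_mod_cast hD.ne_zero
  have h1 : padicValInt (p : ℕ) D = 1 := by
    obtain ⟨v, rfl⟩ := hp
    have hv : ¬ ((p : ℕ) : ℤ) ∣ v := by
      rintro ⟨w, rfl⟩
      exact hpz.not_unit (hD _ ⟨w, by ring⟩)
    have hv0 : v ≠ 0 := by
      rintro rfl
      exact hv (dvd_zero _)
    rw [padicValInt.mul hpz.ne_zero hv0, padicValInt.eq_zero_of_not_dvd hv, padicValInt_self]
  rw [ht, padicValRat.mul hD0 (pow_ne_zero 2 hu), padicValRat.of_int, h1, padicValRat.pow]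
  exact ⟨padicValRat (p : ℕ) u, by push_cast; ring⟩

/-- **the families that contain all bad places** -/
theorem main (L : Lv) {t : ℚ} (ht : t ≠ 0) (S : Finset Nat.Primes) (hb : L.bad ⊆ S)
    (hS : ∀ p : Nat.Primes, Odd (padicValRat (p : ℕ) t) → p ∈ S)
    (d : ℤ) (n0 : ℕ) (hd : Squarefree d) (h0 : Squarefree n0) (hP : L.P n0) (hr : Rep t d n0) :
    (∀ e ∈ Fam S d, ∃ n : ℕ, Squarefree n ∧ L.P n ∧ Rep t e n) ∧
    (∀ k : ℕ, Tendsto (fun X : ℕ => ({e | e ∈ Fam S d ∧ cond e ≤ X ∧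
      ∃ n : ℕ, Squarefree n ∧ L.P n ∧ Rep t e n ∧ Nf n = 2 ^ (k + 1)}.ncard : ℝ) /
      ({e | e ∈ Fam S d ∧ cond e ≤ X}.ncard : ℝ)) atTop (nhds (gk k))) ∧
    ∃ c : ℝ, 0 < c ∧ ∀ᶠ X : ℕ in atTop, c * X ≤ ({e | e ∈ Fam S d ∧ cond e ≤ X}.ncard : ℝ) := by
  obtain ⟨D, hD, u, hu, htD⟩ := exists_sqf ht
  have h2 : (⟨2, Nat.prime_two⟩ : Nat.Primes) ∈ S := hb L.two
  have hS' : ∀ p : Nat.Primes, ((p : ℕ) : ℤ) ∣ D → p ∈ S := fun p hp =>
    hS p (odd_val hD hu htD hp)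
  have h4 := L.four _ hP
  obtain rfl := (rep_iff hD hu htD hd h0).1 hr
  have hPn : ∀ n : ℕ, Squarefree n → Loc S n0 n → L.P n := fun n hn hl =>
    L.loc n0 n h0 hn hP (hl.mono hb)
  refine ⟨?_, fun k => ?_, fam_lower hD h2 hS' h0⟩
  · intro e he
    obtain ⟨n, hn, hl, rfl⟩ := (mem_Fam hD h0).1 he
    exact ⟨n, hn, hPn n hn hl, (rep_iff hD hu htD (sqf_ee hD hn) hn).2 rfl⟩
  · refine law hD h2 hS' h0 h4 k _ fun n hn hl => ?_
    constructor
    · rintro ⟨m, hm, -, h5, h6⟩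
      have h7 := (rep_iff hD hu htD (sqf_ee hD hn) hm).1 h5
      rw [ee_inj hD hn hm h7]
      exact h6
    · intro h6
      exact ⟨n, hn, hPn n hn hl, (rep_iff hD hu htD (sqf_ee hD hn) hn).2 rfl, h6⟩

/-- the primes with odd valuation are finite in number -/
theorem exists_S (L : Lv) {t : ℚ} (ht : t ≠ 0) : ∃ S₀ : Finset Nat.Primes, L.bad ⊆ S₀ ∧
    ∀ p : Nat.Primes, Odd (padicValRat (p : ℕ) t) → p ∈ S₀ := by
  have hinj : Function.Injective (fun p : Nat.Primes => (p : ℕ)) := fun a b h => Subtype.ext h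
  have h0 : t.num ≠ 0 := Rat.num_ne_zero.2 ht
  have hfin : {p : Nat.Primes | Odd (padicValRat (p : ℕ) t)}.Finite := by
    refine Set.Finite.of_injOn (f := fun p : Nat.Primes => (p : ℕ))
      (t := ((t.num.natAbs * t.den).primeFactors : Set ℕ)) ?_ hinj.injOn (Finset.finite_toSet _)
    intro p hp
    refine Nat.mem_primeFactors.2 ⟨p.2, ?_,
      mul_ne_zero (Int.natAbs_ne_zero.2 h0) t.den_ne_zero⟩
    by_contra hcon
    have h1 : ¬ (p : ℕ) ∣ t.num.natAbs := fun h => hcon (Dvd.dvd.mul_right h _)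
    have h2 : ¬ (p : ℕ) ∣ t.den := fun h => hcon (Dvd.dvd.mul_left h _)
    have h3 : padicValRat (p : ℕ) t = 0 := by
      unfold padicValRat padicValInt
      rw [padicValNat.eq_zero_of_not_dvd h1, padicValNat.eq_zero_of_not_dvd h2]
      rfl
    rw [Set.mem_setOf_eq, h3] at hp
    exact absurd hp (by decide)
  exact ⟨L.bad ∪ hfin.toFinset, Finset.subset_union_left, fun p hp =>
    Finset.mem_union_right _ (hfin.mem_toFinset.2 hp)⟩

end Pool.Agent.Run7.h741.LC
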