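import Pool.Agent.Run7.h741.LC.Cnt
import Pool.Agent.Run7.h238.G15.Tw

/-!
# The families of quadratic characters with local conditions
-/

set_option autoImplicit false

open scoped Classical
open Finset Filter

namespace Pool.Agent.Run7.h741.LC

open Run7.h238.G15 (ee ee_mul sqf_ee ee_inj eq_of_sq exists_sqf D_ne gcd_dvd gcd_pos)
open Pool.Agent.Run7.h843.G (Nf)
open Run7.h843.L (gk)

/-- the squarefree integers of the same sign and with the same local square classes as `d` -/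
def Fam (S : Finset Nat.Primes) (d : ℤ) : Set ℤ :=
  {e | Squarefree e ∧ 0 < d * e ∧ Loc S d e}

/-- the conductor of the quadratic character of `ℚ(√d)`, `d` squarefree -/
def cond (d : ℤ) : ℕ := if d % 4 = 1 then d.natAbs else 4 * d.natAbs

/-- the two places at two -/
theorem mod4_iff {S : Finset Nat.Primes} (h2 : (⟨2, Nat.prime_two⟩ : Nat.Primes) ∈ S) {d e : ℤ}
    (hd : Squarefree d) (he : Squarefree e) (h : Loc S d e) : d % 4 = 1 ↔ e % 4 = 1 := by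
  haveI : Fact (Nat.Prime 2) := ⟨Nat.prime_two⟩
  have h5 : Same 2 d e := h ⟨2, Nat.prime_two⟩ h2
  have h6 : (2 : ℤ) ∣ d ↔ (2 : ℤ) ∣ e := by
    constructor
    · intro hx
      exact_mod_cast Same.dvd (p := 2) hd he h5 (by exact_mod_cast hx)
    · intro hx
      exact_mod_cast Same.dvd (p := 2) he hd h5.symm (by exact_mod_cast hx)
  by_cases h7 : (2 : ℤ) ∣ d
  · have := h6.1 h7
    omega
  · have h8 : ¬ (2 : ℤ) ∣ e := fun h9 => h7 (h6.2 h9)
    have h9 := Same.mod_eight (by omega) (by omega) h5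
    omega

section

variable {D : ℤ} (hD : Squarefree D) {S : Finset Nat.Primes} {n0 : ℕ} (h0 : Squarefree n0)

/-- same class for the integers and for the numbers `n` -/
theorem loc_ee (hD : Squarefree D) {m n : ℕ} :
    Loc S (ee D m) (ee D n) ↔ Loc S m n := by
  have hx : D / (Nat.gcd m D.natAbs : ℤ) ≠ 0 := D_ne hD
  have hy : D / (Nat.gcd n D.natAbs : ℤ) ≠ 0 := D_ne hD
  have e1 := ee_mul (D := D) (n := m)
  have e2 := ee_mul (D := D) (n := n)
  set x := D / (Nat.gcd m D.natAbs : ℤ)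
  set y := D / (Nat.gcd n D.natAbs : ℤ)
  have hD0 : D ≠ 0 := hD.ne_zero
  have e3 : ee D m * ee D n * D ^ 2 = (m : ℤ) * n * (x * y) ^ 2 := by
    linear_combination (ee D n * D) * e1 - ((m : ℤ) * x ^ 2) * e2
  refine forall_congr' fun p => forall_congr' fun _ => ?_
  haveI : Fact (p : ℕ).Prime := ⟨p.2⟩
  show IsSquare ((ee D m : ℚ_[(p : ℕ)]) * (ee D n : ℚ_[(p : ℕ)])) ↔
    IsSquare (((m : ℤ) : ℚ_[(p : ℕ)]) * ((n : ℤ) : ℚ_[(p : ℕ)]))
  have hD' : (D : ℚ_[(p : ℕ)]) ≠ 0 := by exact_mod_cast hD0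
  have hx' : (x : ℚ_[(p : ℕ)]) ≠ 0 := by exact_mod_cast hx
  have hy' : (y : ℚ_[(p : ℕ)]) ≠ 0 := by exact_mod_cast hy
  have e4 : (ee D m : ℚ_[(p : ℕ)]) * ee D n * (D : ℚ_[(p : ℕ)]) ^ 2 =
      ((m : ℤ) : ℚ_[(p : ℕ)]) * ((n : ℤ) : ℚ_[(p : ℕ)]) * ((x : ℚ_[(p : ℕ)]) * y) ^ 2 := by
    exact_mod_cast congrArg (Int.cast : ℤ → ℚ_[(p : ℕ)]) e3
  constructor
  · rintro ⟨z, hz⟩
    refine ⟨z * D / (x * y), ?_⟩
    rw [hz] at e4
    field_simp
    linear_combination -e4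
  · rintro ⟨z, hz⟩
    refine ⟨z * (x * y) / D, ?_⟩
    rw [hz] at e4
    field_simp
    linear_combination e4

theorem ee_neg (hD : Squarefree D) {n : ℕ} (hn : Squarefree n) : ee D n * D < 0 := by
  have e1 := ee_mul (D := D) (n := n)
  have hx : D / (Nat.gcd n D.natAbs : ℤ) ≠ 0 := D_ne hD
  rw [e1]
  have h1 : (0 : ℤ) < n := by exact_mod_cast Nat.pos_of_ne_zero hn.ne_zero
  have h2 : 0 < (D / (Nat.gcd n D.natAbs : ℤ)) ^ 2 := by positivity
  nlinarith [mul_pos h1 h2]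

/-- every member of the family belongs to a number `n` -/
theorem exists_n (hD : Squarefree D) {e : ℤ} (he : Squarefree e) (hneg : e * D < 0) :
    ∃ n : ℕ, Squarefree n ∧ e = ee D n := by
  obtain ⟨n, c, hnc, hn⟩ := Nat.sq_mul_squarefree (e * D).natAbs
  have hD0 : D ≠ 0 := hD.ne_zero
  have hc : c ≠ 0 := by
    rintro rfl
    rw [zero_pow two_ne_zero, zero_mul] at hnc
    have := Int.natAbs_eq_zero.1 hnc.symm
    omega
  refine ⟨n, hn, ?_⟩
  have e1 := ee_mul (D := D) (n := n)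
  have hx : D / (Nat.gcd n D.natAbs : ℤ) ≠ 0 := D_ne hD
  set x := D / (Nat.gcd n D.natAbs : ℤ)
  have h1 : e * D = -((n : ℤ) * c ^ 2) := by
    have h2 : ((e * D).natAbs : ℤ) = -(e * D) := Int.ofNat_natAbs_of_nonpos hneg.le
    rw [← hnc] at h2
    push_cast at h2
    linarith
  have h2 : ee D n * (c : ℤ) ^ 2 = e * x ^ 2 := by
    refine mul_right_cancel₀ hD0 ?_
    linear_combination (c : ℤ) ^ 2 * e1 - x ^ 2 * h1
  have h3 : (ee D n).natAbs = e.natAbs := by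
    refine eq_of_sq (Int.squarefree_natAbs.2 (sqf_ee hD hn)) (Int.squarefree_natAbs.2 he) hc
      (Int.natAbs_ne_zero.2 hx) ?_
    have h4 := congrArg Int.natAbs h2
    rw [Int.natAbs_mul, Int.natAbs_mul, Int.natAbs_pow, Int.natAbs_pow, Int.natAbs_natCast] at h4
    exact h4
  rcases Int.natAbs_eq_natAbs_iff.1 h3 with h4 | h4
  · exact h4.symm
  · exfalso
    have h5 := ee_neg hD hn
    rw [h4] at h5
    nlinarith

theorem mem_Fam (hD : Squarefree D) (h0 : Squarefree n0) {e : ℤ} :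
    e ∈ Fam S (ee D n0) ↔ ∃ n : ℕ, Squarefree n ∧ Loc S n0 n ∧ e = ee D n := by
  constructor
  · rintro ⟨h1, h2, h3⟩
    have h4 := ee_neg hD h0
    have h5 : e * D < 0 := by
      by_contra hcon
      push Not at hcon
      have h6 : (ee D n0 * D) * (e * D) ≤ 0 := mul_nonpos_of_nonpos_of_nonneg h4.le hcon
      have h7 : 0 < ee D n0 * e * (D * D) := mul_pos h2 (mul_self_pos.2 hD.ne_zero)
      nlinarith
    obtain ⟨n, hn, rfl⟩ := exists_n hD h1 h5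
    exact ⟨n, hn, (loc_ee hD).1 h3, rfl⟩
  · rintro ⟨n, hn, h1, rfl⟩
    refine ⟨sqf_ee hD hn, ?_, (loc_ee hD).2 h1⟩
    have h4 := ee_neg hD h0
    have h5 := ee_neg hD hn
    have h6 : 0 < (ee D n0 * D) * (ee D n * D) := mul_pos_of_neg_of_neg h4 h5
    have h7 : (ee D n0 * D) * (ee D n * D) = ee D n0 * ee D n * (D * D) := by ring
    rw [h7] at h6
    exact (pos_iff_pos_of_mul_pos h6).2 (mul_self_pos.2 hD.ne_zero)

/-- the common divisor with `D` is constant -/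
theorem gcd_const (hS : ∀ p : Nat.Primes, ((p : ℕ) : ℤ) ∣ D → p ∈ S) {m n : ℕ}
    (hm : Squarefree m) (hn : Squarefree n) (h : Loc S m n) :
    Nat.gcd m D.natAbs ∣ Nat.gcd n D.natAbs := by
  have h1 : Squarefree (Nat.gcd m D.natAbs) := hm.squarefree_of_dvd (Nat.gcd_dvd_left _ _)
  refine Nat.dvd_gcd ?_ (Nat.gcd_dvd_right _ _)
  rw [← Nat.prod_primeFactors_of_squarefree h1]
  refine dvd_trans (Finset.prod_dvd_prod_of_subset _ n.primeFactors _ fun p hp => ?_)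
    (Nat.prod_primeFactors_dvd n)
  have hpp := Nat.prime_of_mem_primeFactors hp
  have hpd := Nat.dvd_of_mem_primeFactors hp
  have hpm : p ∣ m := hpd.trans (Nat.gcd_dvd_left _ _)
  have hpD : p ∣ D.natAbs := hpd.trans (Nat.gcd_dvd_right _ _)
  have h2 := Loc.dvd (sqf_cast.2 hm) (sqf_cast.2 hn) h (p := ⟨p, hpp⟩)
    (hS ⟨p, hpp⟩ (Int.natCast_dvd.2 hpD)) (by exact_mod_cast hpm)
  exact Nat.mem_primeFactors.2 ⟨hpp, by exact_mod_cast h2, hn.ne_zero⟩

/-- the constant in the conductor -/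
def kap (d : ℤ) : ℕ := if d % 4 = 1 then 1 else 4

theorem cond_eq (d : ℤ) : cond d = kap d * d.natAbs := by
  unfold cond kap
  split_ifs <;> simp

theorem kap_pos (d : ℤ) : 0 < kap d := by
  unfold kap
  split_ifs <;> norm_num

/-- the bound for `n` -/
def YY (D : ℤ) (n0 : ℕ) (X : ℕ) : ℕ :=
  Nat.gcd n0 D.natAbs * (X / (kap (ee D n0) * (D.natAbs / Nat.gcd n0 D.natAbs)))

theorem natAbs_ee (n : ℕ) : (ee D n).natAbs =
    (n / Nat.gcd n D.natAbs) * (D.natAbs / Nat.gcd n D.natAbs) := by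
  have h3 : (D / (Nat.gcd n D.natAbs : ℤ)).natAbs = D.natAbs / Nat.gcd n D.natAbs := by
    rw [Int.natAbs_ediv_of_dvd (gcd_dvd (D := D) (n := n))]
    rfl
  unfold ee
  rw [Int.natAbs_mul, Int.natAbs_neg, Int.natAbs_natCast, h3]

theorem cond_le (hD : Squarefree D) (h2 : (⟨2, Nat.prime_two⟩ : Nat.Primes) ∈ S)
    (hS : ∀ p : Nat.Primes, ((p : ℕ) : ℤ) ∣ D → p ∈ S) (h0 : Squarefree n0) {n : ℕ}
    (hn : Squarefree n) (h : Loc S n0 n) (X : ℕ) : cond (ee D n) ≤ X ↔ n ≤ YY D n0 X := by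
  have hg : Nat.gcd n D.natAbs = Nat.gcd n0 D.natAbs :=
    Nat.dvd_antisymm (gcd_const hS hn h0 h.symm) (gcd_const hS h0 hn h)
  have hk : kap (ee D n) = kap (ee D n0) := by
    have h3 := mod4_iff h2 (sqf_ee hD h0) (sqf_ee hD hn) ((loc_ee hD).2 h)
    unfold kap
    by_cases h4 : ee D n0 % 4 = 1
    · rw [if_pos h4, if_pos (h3.1 h4)]
    · rw [if_neg h4, if_neg fun h5 => h4 (h3.2 h5)]
  rw [cond_eq, hk, natAbs_ee, hg]
  unfold YY
  have hgp : 0 < Nat.gcd n0 D.natAbs := gcd_pos h0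
  have hgd : Nat.gcd n0 D.natAbs ∣ D.natAbs := Nat.gcd_dvd_right _ _
  have hgn : Nat.gcd n0 D.natAbs ∣ n := hg ▸ Nat.gcd_dvd_left _ _
  have hDp : 0 < D.natAbs / Nat.gcd n0 D.natAbs :=
    Nat.div_pos (Nat.le_of_dvd (Int.natAbs_pos.2 hD.ne_zero) hgd) hgp
  have hkp := kap_pos (ee D n0)
  obtain ⟨m, hm⟩ := hgn
  set g := Nat.gcd n0 D.natAbs
  set k := kap (ee D n0)
  set q := D.natAbs / g
  rw [hm, Nat.mul_div_cancel_left _ hgp, Nat.mul_le_mul_left_iff hgp,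
    Nat.le_div_iff_mul_le (Nat.mul_pos hkp hDp)]
  have : k * (m * q) = m * (k * q) := by ring
  rw [this]

/-- **the count of the family** -/
theorem count (hD : Squarefree D) (h2 : (⟨2, Nat.prime_two⟩ : Nat.Primes) ∈ S)
    (hS : ∀ p : Nat.Primes, ((p : ℕ) : ℤ) ∣ D → p ∈ S) (h0 : Squarefree n0) (Q : ℤ → Prop)
    (Q' : ℕ → Prop) (hQ : ∀ n : ℕ, Squarefree n → Loc S n0 n → (Q (ee D n) ↔ Q' n)) (X : ℕ) :
    {e | e ∈ Fam S (ee D n0) ∧ cond e ≤ X ∧ Q e}.ncard =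
      ((Icc 1 (YY D n0 X)).filter fun n : ℕ => Squarefree n ∧ Loc S n0 n ∧ Q' n).card := by
  have h1 : {e | e ∈ Fam S (ee D n0) ∧ cond e ≤ X ∧ Q e} = (ee D) ''
      ((Icc 1 (YY D n0 X)).filter fun n : ℕ => Squarefree n ∧ Loc S n0 n ∧ Q' n : Finset ℕ) := by
    ext e
    rw [Set.mem_image, Set.mem_setOf_eq, mem_Fam hD h0]
    constructor
    · rintro ⟨⟨n, hn, hl, rfl⟩, hc, hq⟩
      refine ⟨n, ?_, rfl⟩
      rw [Finset.mem_coe, mem_filter, mem_Icc]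
      exact ⟨⟨Nat.one_le_iff_ne_zero.2 hn.ne_zero, (cond_le hD h2 hS h0 hn hl X).1 hc⟩, hn, hl,
        (hQ n hn hl).1 hq⟩
    · rintro ⟨n, hn, rfl⟩
      rw [Finset.mem_coe, mem_filter, mem_Icc] at hn
      obtain ⟨⟨-, hc⟩, hn, hl, hq⟩ := hn
      exact ⟨⟨n, hn, hl, rfl⟩, (cond_le hD h2 hS h0 hn hl X).2 hc, (hQ n hn hl).2 hq⟩
  rw [h1, Set.ncard_image_of_injOn, Set.ncard_coe_finset]
  intro a ha b hb hab
  rw [Finset.mem_coe, mem_filter] at ha hb
  exact ee_inj hD ha.2.1 hb.2.1 hab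

end

theorem finite_cond (X : ℕ) (P : ℤ → Prop) : {e : ℤ | P e ∧ cond e ≤ X}.Finite := by
  refine (Set.finite_Icc (-(X : ℤ)) X).subset fun e he => ?_
  have h1 : e.natAbs ≤ X := by
    refine le_trans ?_ he.2
    rw [cond_eq]
    exact Nat.le_mul_of_pos_left _ (kap_pos e)
  rw [Set.mem_Icc]
  omega

theorem ncard_cond (X : ℕ) (P : ℤ → Prop) : {e : ℤ | P e ∧ cond e ≤ X}.ncard ≤ 2 * X + 1 := by
  have h1 : {e : ℤ | P e ∧ cond e ≤ X} ⊆ Set.Icc (-(X : ℤ)) X := by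
    intro e he
    have h1 : e.natAbs ≤ X := by
      refine le_trans ?_ he.2
      rw [cond_eq]
      exact Nat.le_mul_of_pos_left _ (kap_pos e)
    rw [Set.mem_Icc]
    omega
  refine (Set.ncard_le_ncard h1 (Set.finite_Icc _ _)).trans ?_
  rw [← Nat.card_coe_set_eq, Nat.card_eq_fintype_card, Fintype.card_ofFinset, Int.card_Icc]
  omega

end Pool.Agent.Run7.h741.LC
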