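import Mathlib

/-!
# Squares in `ℚ_p` and congruences
-/

set_option autoImplicit false

namespace Pool.Agent.Run7.h741.LC

theorem hens (p : ℕ) [hp : Fact p.Prime] (w : ℤ_[p]) : IsSquare (1 + 4 * p * w) := by
  let F : Polynomial ℤ_[p] := Polynomial.X ^ 2 - Polynomial.C (1 + 4 * p * w)
  have h1 : F.aeval (1 : ℤ_[p]) = -(4 * p * w) := by
    simp [F]
  have h2 : F.derivative.aeval (1 : ℤ_[p]) = 2 := by
    simp [F, one_add_one_eq_two]
  have h4 : 0 < ‖(4 : ℤ_[p])‖ := norm_pos_iff.2 (by norm_num)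
  obtain ⟨z, hz, -⟩ := hensels_lemma (p := p) (R := ℤ_[p]) (F := F) (a := 1) (by
    rw [h1, h2, norm_neg, norm_mul, norm_mul]
    have h5 : ‖(2 : ℤ_[p])‖ ^ 2 = ‖(4 : ℤ_[p])‖ := by
      rw [← norm_pow]
      norm_num
    rw [h5]
    have h6 : ‖(p : ℤ_[p])‖ < 1 := by
      rw [PadicInt.norm_p]
      exact inv_lt_one_of_one_lt₀ (by exact_mod_cast hp.out.one_lt)
    have h7 : ‖w‖ ≤ 1 := PadicInt.norm_le_one w
    calc ‖(4 : ℤ_[p])‖ * ‖(p : ℤ_[p])‖ * ‖w‖ ≤ ‖(4 : ℤ_[p])‖ * ‖(p : ℤ_[p])‖ * 1 := by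
          gcongr
      _ < ‖(4 : ℤ_[p])‖ * 1 := by
          rw [mul_one]
          exact mul_lt_mul_of_pos_left h6 h4
      _ = ‖(4 : ℤ_[p])‖ := mul_one _)
  refine ⟨z, ?_⟩
  have : F.aeval z = z ^ 2 - (1 + 4 * p * w) := by simp [F]
  rw [this] at hz
  rw [← pow_two]
  exact (sub_eq_zero.1 hz).symm

/-- a squarefree integer divides `p` times a unit in `ℤ_p` -/
theorem dvd_p (p : ℕ) [hp : Fact p.Prime] {m : ℤ} (hm : Squarefree m) :
    (m : ℤ_[p]) ∣ (p : ℤ_[p]) := by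
  have hpz : Prime (p : ℤ) := Nat.prime_iff_prime_int.1 hp.out
  by_cases h : (p : ℤ) ∣ m
  · obtain ⟨u, rfl⟩ := h
    have hu : ¬ (p : ℤ) ∣ u := by
      rintro ⟨v, rfl⟩
      have := hm (p : ℤ) ⟨v, by ring⟩
      exact hpz.not_unit this
    have h1 : IsUnit (u : ℤ_[p]) := by
      rw [PadicInt.isUnit_iff]
      refine le_antisymm (PadicInt.norm_le_one _) ?_
      by_contra hcon
      push Not at hcon
      exact hu ((PadicInt.norm_int_lt_one_iff_dvd u).1 hcon)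
    rw [Int.cast_mul, Int.cast_natCast]
    exact (h1.mul_right_dvd).2 dvd_rfl
  · have h1 : IsUnit (m : ℤ_[p]) := by
      rw [PadicInt.isUnit_iff]
      refine le_antisymm (PadicInt.norm_le_one _) ?_
      by_contra hcon
      push Not at hcon
      exact h ((PadicInt.norm_int_lt_one_iff_dvd m).1 hcon)
    exact h1.dvd

/-- numbers close to a squarefree number are in its square class -/
theorem near {p : ℕ} [hp : Fact p.Prime] {m n : ℤ} (hm : Squarefree m)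
    (h : (4 * (p : ℤ) ^ 2) ∣ n - m) : ∃ c : ℤ_[p], (n : ℤ_[p]) = m * c ^ 2 := by
  obtain ⟨k, hk⟩ := h
  obtain ⟨e, he⟩ := dvd_p p hm
  obtain ⟨z, hz⟩ := hens p (e * k)
  refine ⟨z, ?_⟩
  have h1 : (n : ℤ_[p]) = m + 4 * (p : ℤ_[p]) ^ 2 * k := by
    have : n = m + 4 * (p : ℤ) ^ 2 * k := by linarith
    rw [this]
    push_cast
    ring
  rw [h1, pow_two z, ← hz]
  linear_combination (4 * (p : ℤ_[p]) * k) * he

/-- `a` and `b` have the same square class in `ℚ_p` (for `a, b ≠ 0`) -/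
def Same (p : ℕ) [Fact p.Prime] (a b : ℤ) : Prop := IsSquare ((a : ℚ_[p]) * b)

theorem Same.symm {p : ℕ} [Fact p.Prime] {a b : ℤ} (h : Same p a b) : Same p b a := by
  unfold Same at *
  rwa [mul_comm]

theorem Same.trans {p : ℕ} [hp : Fact p.Prime] {a b c : ℤ} (hb : b ≠ 0) (h : Same p a b)
    (h' : Same p b c) : Same p a c := by
  unfold Same at *
  obtain ⟨x, hx⟩ := h
  obtain ⟨y, hy⟩ := h'
  have hb' : (b : ℚ_[p]) ≠ 0 := by exact_mod_cast hb
  refine ⟨x * y / b, ?_⟩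
  field_simp
  linear_combination (b : ℚ_[p]) * c * hx + x ^ 2 * hy

theorem Same.refl (p : ℕ) [Fact p.Prime] (a : ℤ) : Same p a a := ⟨a, rfl⟩

theorem Same.mul {p : ℕ} [Fact p.Prime] {a b : ℤ} (h : Same p a b) (c : ℤ) :
    Same p (a * c) (b * c) := by
  unfold Same at *
  obtain ⟨x, hx⟩ := h
  refine ⟨x * c, ?_⟩
  push_cast
  linear_combination (c : ℚ_[p]) ^ 2 * hx

theorem Same.sq {p : ℕ} [Fact p.Prime] {a c : ℤ} : Same p a (a * c ^ 2) :=
  ⟨a * c, by push_cast; ring⟩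

theorem near_same {p : ℕ} [hp : Fact p.Prime] {m n : ℤ} (hm : Squarefree m)
    (h : (4 * (p : ℤ) ^ 2) ∣ n - m) : Same p m n := by
  obtain ⟨c, hc⟩ := near hm h
  refine ⟨(m : ℚ_[p]) * c, ?_⟩
  have h1 := congrArg (fun w : ℤ_[p] => (w : ℚ_[p])) hc
  push_cast at h1
  rw [h1]
  ring

/-- the valuation: squarefree numbers in the same class are divisible by `p` at the same time -/
theorem Same.dvd {p : ℕ} [hp : Fact p.Prime] {a b : ℤ} (ha : Squarefree a) (hb : Squarefree b)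
    (h : Same p a b) (hd : (p : ℤ) ∣ a) : (p : ℤ) ∣ b := by
  have hpz : Prime (p : ℤ) := Nat.prime_iff_prime_int.1 hp.out
  have ha0 : a ≠ 0 := ha.ne_zero
  have hb0 : b ≠ 0 := hb.ne_zero
  by_contra hcon
  obtain ⟨x, hx⟩ := h
  have hab : a * b ≠ 0 := mul_ne_zero ha0 hb0
  have h1 : ((a * b : ℤ) : ℚ_[p]) = x * x := by
    push_cast
    exact hx
  have hx0 : x ≠ 0 := by
    rintro rfl
    rw [mul_zero] at h1
    exact hab (by exact_mod_cast h1)
  have h2 := congrArg Padic.valuation h1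
  rw [Padic.valuation_mul hx0 hx0, Padic.valuation_intCast] at h2
  have h3 : padicValInt p (a * b) = 1 := by
    rw [padicValInt.mul ha0 hb0, padicValInt.eq_zero_of_not_dvd hcon, add_zero]
    obtain ⟨u, rfl⟩ := hd
    have hu : ¬ (p : ℤ) ∣ u := by
      rintro ⟨v, rfl⟩
      exact hpz.not_unit (ha (p : ℤ) ⟨v, by ring⟩)
    have hu0 : u ≠ 0 := by
      rintro rfl
      exact hu (dvd_zero _)
    rw [padicValInt.mul hpz.ne_zero hu0, padicValInt.eq_zero_of_not_dvd hu, padicValInt_self]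
  rw [h3] at h2
  push_cast at h2
  omega

/-- the units: odd numbers in the same class at two are congruent modulo eight -/
theorem Same.mod_eight [Fact (Nat.Prime 2)] {a b : ℤ} (ha : a % 2 = 1) (hb : b % 2 = 1)
    (h : Same 2 a b) : a % 8 = b % 8 := by
  obtain ⟨x, hx⟩ := h
  have h0 : ‖x‖ ≤ 1 := by
    have h1 : ‖x * x‖ ≤ 1 := by
      rw [← hx]
      have h2 := Padic.norm_int_le_one (p := 2) (a * b)
      push_cast at h2
      exact h2
    rw [norm_mul] at h1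
    by_contra hcon
    push Not at hcon
    have := mul_lt_mul'' hcon hcon zero_le_one zero_le_one
    linarith
  obtain ⟨y, rfl⟩ : ∃ y : ℤ_[2], (y : ℚ_[2]) = x := ⟨⟨x, h0⟩, rfl⟩
  have h1 : ((a * b : ℤ) : ℤ_[2]) = y * y := by
    apply Subtype.ext
    push_cast
    exact hx
  have h2 := congrArg (PadicInt.toZModPow 3) h1
  rw [map_mul, map_intCast] at h2
  obtain ⟨z, hz⟩ : ∃ z : ℤ, PadicInt.toZModPow 3 y = (z : ZMod (2 ^ 3)) :=
    ⟨_, (ZMod.intCast_zmod_cast _).symm⟩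
  rw [hz, ← Int.cast_mul, ZMod.intCast_eq_intCast_iff_dvd_sub] at h2
  obtain ⟨k, hk⟩ := h2
  norm_num at hk
  have h3 : z % 2 = 1 := by
    have : (z * z) % 2 = 1 := by
      have h4 : z * z = a * b + 8 * k := by linarith
      have h5 : (a * b) % 2 = 1 := by rw [Int.mul_emod, ha, hb]; norm_num
      omega
    rcases Int.emod_two_eq_zero_or_one z with h6 | h6
    · rw [Int.mul_emod, h6] at this
      norm_num at this
    · exact h6
  have h4 : z * z % 8 = 1 := by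
    have h5 : z % 8 = 1 ∨ z % 8 = 3 ∨ z % 8 = 5 ∨ z % 8 = 7 := by omega
    rcases h5 with h5 | h5 | h5 | h5 <;> rw [Int.mul_emod, h5] <;> norm_num
  have h5 : (a * b) % 8 = 1 := by omega
  have h6 : a % 8 = 1 ∨ a % 8 = 3 ∨ a % 8 = 5 ∨ a % 8 = 7 := by omega
  have h7 : b % 8 = 1 ∨ b % 8 = 3 ∨ b % 8 = 5 ∨ b % 8 = 7 := by omega
  rw [Int.mul_emod] at h5
  rcases h6 with h6 | h6 | h6 | h6 <;> rcases h7 with h7 | h7 | h7 | h7 <;>
    rw [h6, h7] at h5 <;> norm_num at h5 <;> omega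

/-- the units at an odd prime: the product is a square modulo `p` -/
theorem Same.sq_mod {p : ℕ} [Fact p.Prime] {a b : ℤ} (h : Same p a b) :
    IsSquare ((a * b : ℤ) : ZMod p) := by
  obtain ⟨x, hx⟩ := h
  have h0 : ‖x‖ ≤ 1 := by
    have h1 : ‖x * x‖ ≤ 1 := by
      rw [← hx]
      have h2 := Padic.norm_int_le_one (p := p) (a * b)
      push_cast at h2
      exact h2
    rw [norm_mul] at h1
    by_contra hcon
    push Not at hcon
    have := mul_lt_mul'' hcon hcon zero_le_one zero_le_one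
    linarith
  obtain ⟨y, rfl⟩ : ∃ y : ℤ_[p], (y : ℚ_[p]) = x := ⟨⟨x, h0⟩, rfl⟩
  have h1 : ((a * b : ℤ) : ℤ_[p]) = y * y := by
    apply Subtype.ext
    push_cast
    exact hx
  have h2 := congrArg (PadicInt.toZMod (p := p)) h1
  rw [map_mul, map_intCast] at h2
  exact ⟨_, h2⟩

end Pool.Agent.Run7.h741.LC
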